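import Pool.Agent.Helper38.Curl.Rep

open MeasureTheory Set Filter Topology Metric
open scoped ContDiff RealInnerProductSpace
open Pool.Agent.Helper38.Curl

namespace Pool.Agent.Helper48.Curl

/-- Selection of a nearly maximal ratio among all larger scales. -/
theorem select {Ω : Set E} {u : E → E} (hu : MemLp u 2) (hne : ¬ ∃ CU, 0 < CU ∧ Growth Ω u CU)
    (K : ℝ) : ∃ x ∈ frontier Ω, ∃ s κ : ℝ, 0 < s ∧ s ≤ 1 ∧ K < κ ∧ 0 < κ ∧
      sqOn (ball x s) u = κ * s ^ 3 ∧
      ∀ x' ∈ frontier Ω, ∀ s', s ≤ s' → s' ≤ 1 → sqOn (ball x' s') u ≤ 2 * κ * s' ^ 3 := by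
  have h0 : ∃ x ∈ frontier Ω, ∃ s, 0 < s ∧ s ≤ 1 ∧ (max K 1) * s ^ 3 < sqOn (ball x s) u := by
    by_contra hcon
    push Not at hcon
    exact hne ⟨max K 1, by positivity, fun x hx s hs hs1 => hcon x hx s hs hs1⟩
  obtain ⟨x₀, hx₀, s₀, hs₀, hs₀1, h₀⟩ := h0
  set S : Set ℝ := {m | ∃ x ∈ frontier Ω, ∃ s, s₀ ≤ s ∧ s ≤ 1 ∧ m = (s ^ 3)⁻¹ * sqOn (ball x s) u}
    with hS
  have hbdd : BddAbove S := by
    refine ⟨(s₀ ^ 3)⁻¹ * sq u, ?_⟩
    rintro m ⟨x, hx, s, hs, hs1, rfl⟩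
    have h1 : sqOn (ball x s) u ≤ sq u := by
      have := sqOn_mono (subset_univ (ball x s)) (v := u) (by simpa using hu)
      simpa [sqOn, Pool.Agent.Helper38.Curl.sq] using this
    have h2 : (s ^ 3)⁻¹ ≤ (s₀ ^ 3)⁻¹ := by
      apply inv_anti₀ (by positivity)
      exact pow_le_pow_left₀ hs₀.le hs 3
    have h3 : 0 ≤ sqOn (ball x s) u := sqOn_nonneg _ _
    exact mul_le_mul h2 h1 h3 (by positivity)
  have hmem : (s₀ ^ 3)⁻¹ * sqOn (ball x₀ s₀) u ∈ S := ⟨x₀, hx₀, s₀, le_rfl, hs₀1, rfl⟩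
  have hM : max K 1 < sSup S := by
    refine lt_of_lt_of_le ?_ (le_csSup hbdd hmem)
    rw [inv_mul_eq_div, lt_div_iff₀ (by positivity)]
    exact h₀
  have hM1 : 1 < sSup S := lt_of_le_of_lt (le_max_right _ _) hM
  have hM2 : K < sSup S := lt_of_le_of_lt (le_max_left _ _) hM
  have hlt : max K (sSup S / 2) < sSup S := by
    rw [max_lt_iff]
    constructor
    · exact hM2
    · linarith
  obtain ⟨m, ⟨x, hx, s, hs, hs1, rfl⟩, hm⟩ := exists_lt_of_lt_csSup ⟨_, hmem⟩ hlt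
  have hspos : 0 < s := hs₀.trans_le hs
  have hm1 : K < (s ^ 3)⁻¹ * sqOn (ball x s) u := lt_of_le_of_lt (le_max_left _ _) hm
  have hm2 : sSup S / 2 < (s ^ 3)⁻¹ * sqOn (ball x s) u := lt_of_le_of_lt (le_max_right _ _) hm
  refine ⟨x, hx, s, (s ^ 3)⁻¹ * sqOn (ball x s) u, hspos, hs1, hm1, by linarith, ?_, ?_⟩
  · field_simp
  · intro x' hx' s' hs' hs'1
    have hs'pos : 0 < s' := hspos.trans_le hs'
    have h1 : (s' ^ 3)⁻¹ * sqOn (ball x' s') u ≤ sSup S :=
      le_csSup hbdd ⟨x', hx', s', hs.trans hs', hs'1, rfl⟩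
    have h2 : (s' ^ 3)⁻¹ * sqOn (ball x' s') u ≤ 2 * ((s ^ 3)⁻¹ * sqOn (ball x s) u) := by
      linarith
    rw [inv_mul_eq_div, div_le_iff₀ (by positivity)] at h2
    exact h2

/-- The growth bound at the boundary. -/
theorem growth_of
    (pot_exists : ∀ {c : E} {ρ : ℝ}, 0 < ρ → ∀ {v : E → E}, Sol (closedBall c ρ) v →
      ∃ a, Pot a v ∧ VanOff (closedBall c ρ) a ∧ sq a ≤ 4 * ρ ^ 2 * sq v)
    (liouville_compact : ∀ {v : ℕ → E → E} {y : ℕ → E} {c K : ℝ}, 0 < c →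
      (∀ n, MemLp (v n) 2) → (∀ n η, TestF η → ∫ x, fderiv ℝ η x (v n x) = 0) →
      (∀ R, 1 ≤ R → ∀ᶠ n in atTop, sqOn (ball 0 R) (v n) ≤ K * R ^ 3) →
      (∀ n, ‖y n‖ ≤ 1) → (∀ n, ∀ᵐ x, x ∈ ball (y n) c → v n x = 0) →
      (∀ R, 0 < R → ∀ ε, 0 < ε → ∀ᶠ n in atTop, ∀ r, Sol (closedBall 0 R) r →
        |ip (v n) r| ≤ ε * √(sq r)) →
      Tendsto (fun n => sqOn (ball 0 1) (v n)) atTop (𝓝 0))
    (sqOn_bl : ∀ (u : E → E) (x z : E) {s : ℝ}, 0 < s → ∀ R : ℝ,
      sqOn (ball z R) (bl u x s) = (s ^ 3)⁻¹ * sqOn (ball (x + s • z) (s * R)) u)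
    (bl_memLp : ∀ {u : E → E}, MemLp u 2 → ∀ (x : E) {s : ℝ}, 0 < s → MemLp (bl u x s) 2)
    (bl_divFree : ∀ {u : E → E}, (∀ η, TestF η → ∫ x, fderiv ℝ η x (u x) = 0) → ∀ (x : E) {s : ℝ},
      0 < s → ∀ η : E → ℝ, TestF η → ∫ z, fderiv ℝ η z (bl u x s z) = 0)
    (scale_out : ∀ {Ω : Set E} {u a : E → E} {Λ : ℝ}, Crit Ω u a Λ → ∀ {b r : E → E},
      Pot b r → ∀ (x : E) {s : ℝ}, 0 < s → ∀ {Q : Set E}, IsCompact Q → VanOff Q r →
      2 * (s * ip (bl u x s) b - Λ * ip (bl u x s) r)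
        ≤ Λ / 3 * volume.real (Q \ {z | x + s • z ∈ closure Ω}) * (√3 + √(s ^ 3 * sq r)) ^ 2
          + Λ * sq r + s * |ip r b|)
    {Ω : Set E} {u a : E → E} {Λ : ℝ} (hc : Crit Ω u a Λ) {r₀ c₀ : ℝ}
    {F : Finset E} (hT : Trans Ω r₀ c₀ F) : ∃ CU, 0 < CU ∧ Growth Ω u CU := by
  classical
  by_contra hne
  have hu : MemLp u 2 := hc.pot.memLp₂
  have hr₀ := hT.rpos
  have hc₀ := hT.cpos
  have hΛ := hc.pos
  have hsel := fun n : ℕ => select hu hne ((n : ℝ) + 1 + 3 / (2 * r₀) ^ 3)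
  choose x hx s κ hs hs1 hκ hκ0 heq hsup using hsel
  -- the scales are small
  have hs3 : ∀ n, κ n * s n ^ 3 ≤ 3 := by
    intro n
    rw [← heq n, ← hc.norm]
    have := sqOn_mono (subset_univ (ball (x n) (s n))) (v := u) (by simpa using hu)
    simpa [sqOn, Pool.Agent.Helper38.Curl.sq] using this
  have hs4 : ∀ n, s n ^ 3 ≤ 3 / κ n := by
    intro n
    rw [le_div_iff₀ (hκ0 n)]
    linarith [hs3 n]
  have hκn : ∀ n : ℕ, (n : ℝ) + 1 ≤ κ n := by
    intro n
    have := hκ n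
    have h3 : 0 < 3 / (2 * r₀) ^ 3 := by positivity
    linarith
  have hκtop : Tendsto κ atTop atTop := by
    refine tendsto_atTop_mono hκn ?_
    exact tendsto_atTop_add_const_right _ _ tendsto_natCast_atTop_atTop
  have hsr : ∀ n, s n ≤ 2 * r₀ := by
    intro n
    by_contra hcon
    push Not at hcon
    have h1 : (2 * r₀) ^ 3 < s n ^ 3 := pow_lt_pow_left₀ hcon (by positivity) (by norm_num)
    have h2 : 3 / (2 * r₀) ^ 3 < κ n := by
      have := hκ n
      have : (0 : ℝ) ≤ n := Nat.cast_nonneg n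
      linarith
    rw [div_lt_iff₀ (by positivity)] at h2
    have h3 : κ n * (2 * r₀) ^ 3 < κ n * s n ^ 3 := mul_lt_mul_of_pos_left h1 (hκ0 n)
    linarith [hs3 n]
  have hs30 : Tendsto (fun n => s n ^ 3) atTop (𝓝 0) := by
    refine squeeze_zero (fun n => by have := hs n; positivity) hs4 ?_
    exact tendsto_const_nhds.div_atTop hκtop
  have hs0 : Tendsto s atTop (𝓝 0) := by
    rw [Metric.tendsto_atTop] at hs30 ⊢
    intro ε hε
    obtain ⟨N, hN⟩ := hs30 (ε ^ 3) (by positivity)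
    refine ⟨N, fun n hn => ?_⟩
    have h := hN n hn
    rw [Real.dist_eq, sub_zero, abs_of_nonneg (by have := hs n; positivity)] at h ⊢
    exact lt_of_pow_lt_pow_left₀ 3 hε.le h
  -- the rescaled fields
  set v : ℕ → E → E := fun n z => (√(κ n))⁻¹ • bl u (x n) (s n) z with hvdef
  have hκs : ∀ n, 0 < √(κ n) := fun n => Real.sqrt_pos.2 (hκ0 n)
  have hblm : ∀ n, MemLp (bl u (x n) (s n)) 2 := fun n => bl_memLp hu (x n) (hs n)
  have hvm : ∀ n, MemLp (v n) 2 := fun n => (hblm n).const_smul (√(κ n))⁻¹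
  have hsqv : ∀ n R, sqOn (ball 0 R) (v n)
      = (κ n)⁻¹ * ((s n ^ 3)⁻¹ * sqOn (ball (x n) (s n * R)) u) := by
    intro n R
    rw [hvdef]
    simp only
    rw [sqOn_smul, sqOn_bl u (x n) 0 (hs n) R, smul_zero, add_zero, inv_pow,
      Real.sq_sqrt (hκ0 n).le]
  have hdv : ∀ n η, TestF η → ∫ x, fderiv ℝ η x (v n x) = 0 := by
    intro n η hη
    have h1 := bl_divFree (u := u) hc.pot.divFree (x n) (hs n) η hη
    simp only [hvdef, map_smul, smul_eq_mul]
    rw [integral_const_mul, h1, mul_zero]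
  have hgr : ∀ R, 1 ≤ R → ∀ᶠ n in atTop, sqOn (ball 0 R) (v n) ≤ 2 * R ^ 3 := by
    intro R hR
    have hev : ∀ᶠ n in atTop, s n < 1 / R := (tendsto_order.1 hs0).2 _ (by positivity)
    filter_upwards [hev] with n hn
    have hsn := hs n
    have h1 : s n * R ≤ 1 := by
      rw [lt_div_iff₀ (by linarith)] at hn
      exact hn.le
    have h2 : s n ≤ s n * R := by nlinarith
    have h3 := hsup n (x n) (hx n) (s n * R) h2 h1
    rw [hsqv]
    have h4 : (κ n)⁻¹ * ((s n ^ 3)⁻¹ * sqOn (ball (x n) (s n * R)) u)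
        ≤ (κ n)⁻¹ * ((s n ^ 3)⁻¹ * (2 * κ n * (s n * R) ^ 3)) := by
      have := hκ0 n
      gcongr
    refine h4.trans (le_of_eq ?_)
    have := hκ0 n
    field_simp
  -- the balls on which the fields vanish
  have hν : ∀ n, ∃ ν ∈ F, ∀ y ∈ frontier Ω ∩ ball (x n) r₀, ∀ t ∈ Icc (0 : ℝ) r₀,
    c₀ * t ≤ sd Ω (y + t • ν) ∧ sd Ω (y - t • ν) ≤ -(c₀ * t) := fun n => hT.main (x n) (hx n)
  choose ν hνF hν using hν
  have hz : ∀ n, ∀ᵐ z, z ∈ ball (-(1 / 2 : ℝ) • ν n) (c₀ / 2) → v n z = 0 := by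
    intro n
    refine Eventually.of_forall fun z hzb => ?_
    have hsn := hs n
    have h1 := (hν n (x n) ⟨hx n, mem_ball_self hr₀⟩ (s n / 2)
      ⟨by positivity, by linarith [hsr n]⟩).2
    set p : E := x n - (s n / 2) • ν n with hp
    have h2 : c₀ * (s n / 2) ≤ infDist p Ω := by
      have : 0 ≤ infDist p Ωᶜ := infDist_nonneg
      unfold sd at h1
      linarith
    have h3 : dist p (x n + s n • z) < s n * (c₀ / 2) := by
      rw [mem_ball, dist_eq_norm] at hzb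
      have h4 : p - (x n + s n • z) = -(s n • (z - (-(1 / 2 : ℝ) • ν n))) := by
        rw [hp, smul_sub, smul_smul]
        have : s n * -(1 / 2) = -(s n / 2) := by ring
        rw [this, neg_smul]
        abel
      rw [dist_eq_norm, h4, norm_neg, norm_smul, Real.norm_eq_abs, abs_of_pos hsn]
      exact mul_lt_mul_of_pos_left hzb hsn
    have h5 : x n + s n • z ∉ Ω := by
      intro hmem
      have := infDist_le_dist_of_mem (x := p) hmem
      linarith
    simp only [hvdef, bl, hc.van _ h5, smul_zero]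
  have hy : ∀ n, ‖(-(1 / 2 : ℝ)) • ν n‖ ≤ 1 := by
    intro n
    rw [norm_smul, hT.unit _ (hνF n)]
    norm_num
  -- smallness on solenoidal fields
  have hα : ∀ R, 0 < R → ∀ ε, 0 < ε → ∀ᶠ n in atTop, ∀ r, Sol (closedBall 0 R) r →
      |ip (v n) r| ≤ ε * √(sq r) := by
    intro R hR ε hε
    set C : ℝ := Λ / 3 * volume.real (closedBall (0 : E) R) * (√3 + 1) ^ 2 + Λ + 2 * R with hC
    set D : ℝ := √(2 * (R + 1) ^ 3) * (2 * R) with hD
    have hev1 : Tendsto (fun n => C / √(κ n) + s n * D) atTop (𝓝 0) := by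
      have h1 : Tendsto (fun n => C / √(κ n)) atTop (𝓝 0) :=
        tendsto_const_nhds.div_atTop ((Real.tendsto_sqrt_atTop).comp hκtop)
      have h2 : Tendsto (fun n => s n * D) atTop (𝓝 0) := by simpa using hs0.mul_const D
      simpa using h1.add h2
    have hev2 : ∀ᶠ n in atTop, C / √(κ n) + s n * D < Λ * ε :=
      (tendsto_order.1 hev1).2 _ (by positivity)
    filter_upwards [hev2, hgr (R + 1) (by linarith)] with n hn hgn r hr
    have hsn := hs n
    have hκn := hκ0 n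
    have hrm := hr.memLp
    by_cases hr0 : sq r = 0
    · have h1 := abs_ip_le (hvm n) hrm
      rw [hr0, Real.sqrt_zero, mul_zero] at h1
      rw [hr0, Real.sqrt_zero, mul_zero]
      exact h1
    have hrpos : 0 < sq r := lt_of_le_of_ne (sq_nonneg' r) (Ne.symm hr0)
    have hrs : 0 < √(sq r) := Real.sqrt_pos.2 hrpos
    set r' : E → E := fun z => (√(sq r))⁻¹ • r z with hr'
    have hsol : Sol (closedBall 0 R) r' := hr.smul _
    have hsq' : sq r' = 1 := by
      rw [hr', sq_smul, inv_pow, Real.sq_sqrt hrpos.le, inv_mul_cancel₀ hr0]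
    obtain ⟨b, hb, hbv, hbs⟩ := pot_exists hR hsol
    have hbs' : √(sq b) ≤ 2 * R := by
      rw [hsq', mul_one] at hbs
      calc √(sq b) ≤ √(4 * R ^ 2) := Real.sqrt_le_sqrt hbs
        _ = 2 * R := by
          rw [show 4 * R ^ 2 = (2 * R) ^ 2 by ring, Real.sqrt_sq (by positivity)]
    have hrb : |ip r' b| ≤ 2 * R := by
      have := abs_ip_le hb.memLp₂ hb.memLp₁
      rw [hsq', Real.sqrt_one, one_mul] at this
      exact this.trans hbs'
    have hs31 : s n ^ 3 ≤ 1 := pow_le_one₀ hsn.le (hs1 n)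
    -- the general bound
    have key : ∀ (b' r'' : E → E), Pot b' r'' → VanOff (closedBall 0 R) r'' → sq r'' = 1 →
        |ip r'' b'| ≤ 2 * R →
        2 * (s n * ip (bl u (x n) (s n)) b' - Λ * ip (bl u (x n) (s n)) r'') ≤ C := by
      intro b' r'' hp hv1 hv2 hv3
      have h1 := scale_out hc hp (x n) hsn (isCompact_closedBall (0 : E) R) hv1
      refine h1.trans ?_
      rw [hv2, mul_one, mul_one]
      have h2 : volume.real (closedBall (0 : E) R \ {z | x n + s n • z ∈ closure Ω})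
          ≤ volume.real (closedBall (0 : E) R) :=
        measureReal_mono sdiff_subset (isCompact_closedBall (0 : E) R).measure_lt_top.ne
      have h3 : √(s n ^ 3) ≤ 1 := Real.sqrt_le_one.2 hs31
      have h4 : s n * |ip r'' b'| ≤ 1 * (2 * R) := by
        have := hs1 n
        gcongr
      rw [hC]
      have h5 : Λ / 3 * volume.real (closedBall (0 : E) R \ {z | x n + s n • z ∈ closure Ω})
          * (√3 + √(s n ^ 3)) ^ 2 ≤ Λ / 3 * volume.real (closedBall (0 : E) R) * (√3 + 1) ^ 2 := by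
        gcongr
      linarith
    have k1 := key b r' hb hsol.van hsq' hrb
    have k2 := key (fun z => (-1 : ℝ) • b z) (fun z => (-1 : ℝ) • r' z) (hb.smul (-1))
      (hsol.van.smul (-1)) (by rw [sq_smul, hsq']; norm_num)
      (by rw [ip_smul_left, ip_smul_right]; simpa using hrb)
    rw [ip_smul_right, ip_smul_right] at k2
    have hbl2 : |ip (bl u (x n) (s n)) b| ≤ √(κ n) * D := by
      have h1 := abs_ip_le_sqOn (C := closedBall (0 : E) R) isClosed_closedBall.measurableSet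
        ((hblm n).restrict _) hb.memLp₁ hbv
      have h2 : sqOn (closedBall (0 : E) R) (bl u (x n) (s n)) ≤ κ n * (2 * (R + 1) ^ 3) := by
        have h3 : sqOn (closedBall (0 : E) R) (bl u (x n) (s n))
            ≤ sqOn (ball (0 : E) (R + 1)) (bl u (x n) (s n)) :=
          sqOn_mono (closedBall_subset_ball (by linarith)) ((hblm n).restrict _)
        have h4 : sqOn (ball (0 : E) (R + 1)) (bl u (x n) (s n))
            = κ n * sqOn (ball (0 : E) (R + 1)) (v n) := by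
          rw [hvdef]
          simp only
          rw [sqOn_smul, inv_pow, Real.sq_sqrt hκn.le, ← mul_assoc, mul_inv_cancel₀ hκn.ne',
            one_mul]
        rw [h4] at h3
        exact h3.trans (by gcongr)
      have h5 : √(sqOn (closedBall (0 : E) R) (bl u (x n) (s n)))
          ≤ √(κ n) * √(2 * (R + 1) ^ 3) := by
        rw [← Real.sqrt_mul hκn.le]
        exact Real.sqrt_le_sqrt h2
      calc |ip (bl u (x n) (s n)) b|
          ≤ √(sqOn (closedBall (0 : E) R) (bl u (x n) (s n))) * √(sq b) := h1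
        _ ≤ (√(κ n) * √(2 * (R + 1) ^ 3)) * (2 * R) := by gcongr
        _ = √(κ n) * D := by rw [hD]; ring
    have hCpos : 0 ≤ C := by
      rw [hC]
      positivity
    have hmain : Λ * |ip (bl u (x n) (s n)) r'| ≤ C + s n * (√(κ n) * D) := by
      have h1 : |Λ * ip (bl u (x n) (s n)) r'| ≤ C + s n * |ip (bl u (x n) (s n)) b| := by
        have h2 : |s n * ip (bl u (x n) (s n)) b| = s n * |ip (bl u (x n) (s n)) b| := by
          rw [abs_mul, abs_of_pos hsn]
        have h3 := abs_le.1 (le_of_eq h2)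
        rw [abs_le]
        constructor <;> linarith
      rw [abs_mul, abs_of_pos hΛ] at h1
      exact h1.trans (by gcongr)
    have hv1 : |ip (v n) r| = √(sq r) * ((√(κ n))⁻¹ * |ip (bl u (x n) (s n)) r'|) := by
      have h1 : ip (v n) r = (√(κ n))⁻¹ * ip (bl u (x n) (s n)) r := ip_smul_left _ _ _
      have h2 : ip (bl u (x n) (s n)) r' = (√(sq r))⁻¹ * ip (bl u (x n) (s n)) r :=
        ip_smul_right _ _ _
      rw [h1, h2, abs_mul, abs_mul, abs_of_pos (inv_pos.2 (hκs n)), abs_of_pos (inv_pos.2 hrs)]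
      field_simp
    rw [hv1, mul_comm ε]
    refine mul_le_mul_of_nonneg_left ?_ hrs.le
    have h6 : Λ * ((√(κ n))⁻¹ * |ip (bl u (x n) (s n)) r'|) ≤ C / √(κ n) + s n * D := by
      have h7 : Λ * ((√(κ n))⁻¹ * |ip (bl u (x n) (s n)) r'|)
          = (√(κ n))⁻¹ * (Λ * |ip (bl u (x n) (s n)) r'|) := by ring
      rw [h7]
      calc (√(κ n))⁻¹ * (Λ * |ip (bl u (x n) (s n)) r'|)
          ≤ (√(κ n))⁻¹ * (C + s n * (√(κ n) * D)) := by
            have := hκs n
            gcongr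
        _ = C / √(κ n) + s n * D := by
            have := hκs n
            field_simp
    nlinarith
  have hlim := liouville_compact (by positivity : 0 < c₀ / 2) hvm hdv hgr hy hz hα
  have hone : ∀ n, sqOn (ball 0 1) (v n) = 1 := by
    intro n
    have := hκ0 n
    have := hs n
    rw [hsqv, mul_one, heq n]
    field_simp
  simp only [hone] at hlim
  have := tendsto_nhds_unique hlim tendsto_const_nhds
  norm_num at this

end Pool.Agent.Helper48.Curl
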